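import Pool.Agent.helper58.CRO.SpecI

set_option autoImplicit false

open scoped Manifold ContDiff Topology ENNReal
open MeasureTheory Set

noncomputable section

namespace Pool.Agent.CRO

theorem IMT (h1 : INV_stmt) (h2 : IME_stmt) : IMT_stmt := by
  classical
  intro n r0 𝒢 L R e r1 H Φ hS h hh
  obtain ⟨oStay, oSL, -⟩ := h2 n r0 𝒢 L R e r1 H Φ hS
  have hinv := h1 n r0 𝒢 L R e r1 H Φ hS
  have hfl := hS.fl
  set S : Set (PS n) := SL 𝒢 e R with hSdef
  set P : Set (PS n × ℝ) := {q | q.1 ∈ S ∧ Stay Φ R q.1 q.2} with hP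
  have hPm : MeasurableSet P :=
    ((oSL.preimage continuous_fst).inter oStay).measurableSet
  set h' : PS n × PS n → ℝ≥0∞ := (S ×ˢ S).indicator (fun q : PS n × PS n => h q.1 q.2) with hh'
  have hcont : Continuous fun q : PS n × ℝ => Φ q.2 q.1 :=
    hfl.cont.comp (continuous_snd.prodMk continuous_fst)
  set F : PS n × ℝ → ℝ≥0∞ := P.indicator (fun q => h' (q.1, Φ q.2 q.1)) with hF
  set G : PS n × ℝ → ℝ≥0∞ := P.indicator (fun q => h' (Φ q.2 q.1, q.1)) with hG
  have hFm : Measurable F :=
    (hh.comp (measurable_fst.prodMk hcont.measurable)).indicator hPm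
  have hGm : Measurable G :=
    (hh.comp (hcont.measurable.prodMk measurable_fst)).indicator hPm
  have hst0 : ∀ z u, Stay Φ R z u → Stay Φ R z 0 := by
    intro z u hu s hs
    apply hu s
    rw [uIcc_self, mem_singleton_iff] at hs
    rw [hs]
    exact left_mem_uIcc
  have hsec : ∀ z, MeasurableSet {u : ℝ | Stay Φ R z u} := by
    intro z
    have : {u : ℝ | Stay Φ R z u} = (fun u : ℝ => ((z, u) : PS n × ℝ)) ⁻¹'
        {q : PS n × ℝ | Stay Φ R q.1 q.2} := rfl
    rw [this]
    exact (oStay.preimage (Continuous.prodMk_right z)).measurableSet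
  have key : ∀ z u, F (z, u) = G (Φ u z, -u) := by
    intro z u
    have hback : Φ (-u) (Φ u z) = z := by
      rw [← hfl.add]
      simp [hfl.zero]
    have hiff : (z, u) ∈ P ↔ (Φ u z, -u) ∈ P := by
      constructor
      · rintro ⟨hz, hu⟩
        obtain ⟨a1, -, a3, -⟩ := hinv z hz u hu
        refine ⟨a1, ?_⟩
        have := (a3 (-u)).2 (by simpa using hst0 z u hu)
        exact this
      · rintro ⟨hz, hu⟩
        simp only at hz hu
        obtain ⟨a1, -, a3, -⟩ := hinv (Φ u z) hz (-u) hu
        rw [hback] at a1 a3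
        refine ⟨a1, ?_⟩
        have := (a3 u).2 (by simpa using hst0 (Φ u z) (-u) hu)
        exact this
    rw [hF, hG]
    by_cases hm : (z, u) ∈ P
    · rw [indicator_of_mem hm, indicator_of_mem (hiff.1 hm)]
      simp only
      rw [hback]
    · rw [indicator_of_notMem hm, indicator_of_notMem (fun h => hm (hiff.2 h))]
  have hL : ∫⁻ z in S, ∫⁻ u in {u | Stay Φ R z u}, h z (Φ u z) = ∫⁻ z, ∫⁻ u, F (z, u) := by
    rw [← lintegral_indicator oSL.measurableSet]
    apply lintegral_congr
    intro z
    by_cases hz : z ∈ S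
    · rw [indicator_of_mem hz, ← lintegral_indicator (hsec z)]
      apply lintegral_congr
      intro u
      by_cases hu : Stay Φ R z u
      · have hm : (z, u) ∈ P := ⟨hz, hu⟩
        rw [indicator_of_mem (show u ∈ {u | Stay Φ R z u} from hu), hF, indicator_of_mem hm, hh']
        simp only
        rw [indicator_of_mem (show (z, Φ u z) ∈ S ×ˢ S from ⟨hz, (hinv z hz u hu).1⟩)]
      · have hm : (z, u) ∉ P := fun h => hu h.2
        rw [indicator_of_notMem (show u ∉ {u | Stay Φ R z u} from hu), hF, indicator_of_notMem hm]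
    · rw [indicator_of_notMem hz]
      symm
      have h0 : ∀ u : ℝ, F (z, u) = 0 := fun u => indicator_of_notMem (fun h => hz h.1) _
      simp only [h0, lintegral_zero]
  have hR : ∫⁻ z in S, ∫⁻ u in {u | Stay Φ R z u}, h (Φ u z) z = ∫⁻ z, ∫⁻ u, G (z, u) := by
    rw [← lintegral_indicator oSL.measurableSet]
    apply lintegral_congr
    intro z
    by_cases hz : z ∈ S
    · rw [indicator_of_mem hz, ← lintegral_indicator (hsec z)]
      apply lintegral_congr
      intro u
      by_cases hu : Stay Φ R z u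
      · have hm : (z, u) ∈ P := ⟨hz, hu⟩
        rw [indicator_of_mem (show u ∈ {u | Stay Φ R z u} from hu), hG, indicator_of_mem hm, hh']
        simp only
        rw [indicator_of_mem (show (Φ u z, z) ∈ S ×ˢ S from ⟨(hinv z hz u hu).1, hz⟩)]
      · have hm : (z, u) ∉ P := fun h => hu h.2
        rw [indicator_of_notMem (show u ∉ {u | Stay Φ R z u} from hu), hG, indicator_of_notMem hm]
    · rw [indicator_of_notMem hz]
      symm
      have h0 : ∀ u : ℝ, G (z, u) = 0 := fun u => indicator_of_notMem (fun h => hz h.1) _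
      simp only [h0, lintegral_zero]
  rw [hL, hR]
  rw [lintegral_lintegral_swap (f := fun z u => F (z, u)) hFm.aemeasurable,
    lintegral_lintegral_swap (f := fun z u => G (z, u)) hGm.aemeasurable]
  have e1 : ∀ u : ℝ, ∫⁻ z, F (z, u) = ∫⁻ z, G (z, -u) := by
    intro u
    have hm : Measurable fun z => G (z, -u) := hGm.comp measurable_prodMk_right
    rw [← (hfl.mp u).lintegral_comp hm]
    apply lintegral_congr
    intro z
    exact key z u
  rw [lintegral_congr e1]
  exact lintegral_neg_eq_self (μ := (volume : Measure ℝ)) (fun u => ∫⁻ z, G (z, u))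

end Pool.Agent.CRO
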