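import Pool.Agent.helper58.CRO.SpecJ

set_option autoImplicit false

open scoped Manifold ContDiff Topology ENNReal
open MeasureTheory Set

noncomputable section

namespace Pool.Agent.CRO

theorem JMF_sqrt {φ : ℝ} (h0 : 0 ≤ φ) (h1 : φ ≤ Real.pi) : Real.sqrt (1 - Real.cos φ ^ 2) = Real.sin φ := by
  have h2 : 1 - Real.cos φ ^ 2 = Real.sin φ ^ 2 := by
    have := Real.sin_sq_add_cos_sq φ
    linarith
  rw [h2, Real.sqrt_sq (Real.sin_nonneg_of_nonneg_of_le_pi h0 h1)]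

theorem JMF_MM (m : ℕ) {φ : ℝ} (h0 : 0 ≤ φ) (h1 : φ ≤ Real.pi) :
    MMc (m + 2) (Real.cos φ) = ∫ t in (0 : ℝ)..φ, Real.sin t ^ (m + 2) := by
  have hg : Continuous (fun t : ℝ => Real.sqrt (1 - t ^ 2) ^ (m + 1)) := by fun_prop
  have h2 := intervalIntegral.integral_comp_mul_deriv (a := 0) (b := φ) (f := Real.cos)
    (f' := fun x => -Real.sin x) (g := fun t : ℝ => Real.sqrt (1 - t ^ 2) ^ (m + 1))
    (fun x _ => Real.hasDerivAt_cos x) (by fun_prop) hg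
  have h3 : MMc (m + 2) (Real.cos φ) = ∫ t in (Real.cos φ)..1, Real.sqrt (1 - t ^ 2) ^ (m + 1) := rfl
  rw [Real.cos_zero] at h2
  rw [h3, intervalIntegral.integral_symm, ← h2, ← intervalIntegral.integral_neg]
  refine intervalIntegral.integral_congr fun t ht => ?_
  rw [uIcc_of_le h0] at ht
  show -(((fun t : ℝ => Real.sqrt (1 - t ^ 2) ^ (m + 1)) ∘ Real.cos) t * -Real.sin t) = Real.sin t ^ (m + 2)
  show -(Real.sqrt (1 - Real.cos t ^ 2) ^ (m + 1) * -Real.sin t) = Real.sin t ^ (m + 2)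
  rw [JMF_sqrt ht.1 (ht.2.trans h1)]
  ring

theorem JMF : JMF_stmt := by
  intro n hn φ hφ
  obtain ⟨m, rfl⟩ : ∃ m, n = m + 2 := ⟨n - 2, by omega⟩
  have hφ1 : φ ≤ Real.pi := by
    have := Real.pi_pos
    linarith [hφ.2]
  have h1 : BTc (m + 2) (Real.cos φ) = Real.sqrt (1 - Real.cos φ ^ 2) ^ (m + 3) / ((m + 2 : ℕ) : ℝ) -
      Real.cos φ * MMc (m + 2) (Real.cos φ) := rfl
  have h2 : FPc (m + 2) φ = ∫ t in (0 : ℝ)..φ, Real.sin t ^ m := rfl
  have h3 : m + 2 - 1 = m + 1 := rfl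
  have h4 := integral_sin_pow (a := 0) (b := φ) (n := m)
  rw [h1, h2, h3, JMF_MM m hφ.1 hφ1, JMF_sqrt hφ.1 hφ1, h4, Real.sin_zero]
  have h5 : Real.cos φ ^ 2 = 1 - Real.sin φ ^ 2 := by
    have := Real.sin_sq_add_cos_sq φ
    linarith
  have h6 : (0 : ℝ) ^ (m + 1) = 0 := by simp
  rw [h6]
  push_cast
  have h7 : (m : ℝ) + 2 ≠ 0 := by positivity
  field_simp
  have h8 : Real.sin φ ^ (m + 3) = Real.sin φ ^ (m + 1) * Real.sin φ ^ 2 := by ring
  rw [h8]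
  linear_combination (-Real.sin φ ^ (m + 1)) * h5

end Pool.Agent.CRO
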