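import Pool.Agent.helper58.CRO.SpecJ

set_option autoImplicit false

open scoped Manifold ContDiff Topology ENNReal
open MeasureTheory Set

noncomputable section

namespace Pool.Agent.CRO

/-- `∫_0^{π/2} sin^k` -/
def JNU_S (k : ℕ) : ℝ := ∫ t in (0 : ℝ)..(Real.pi / 2), Real.sin t ^ k

theorem JNU_S0 : JNU_S 0 = Real.pi / 2 := by
  unfold JNU_S
  simp

theorem JNU_S1 : JNU_S 1 = 1 := by
  unfold JNU_S
  simp

theorem JNU_rec (k : ℕ) : JNU_S (k + 2) = ((k : ℝ) + 1) / (k + 2) * JNU_S k := by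
  unfold JNU_S
  rw [integral_sin_pow]
  simp

theorem JNU_pos (k : ℕ) : 0 < JNU_S k := by
  induction k using Nat.twoStepInduction with
  | zero => rw [JNU_S0]; have := Real.pi_pos; linarith
  | one => rw [JNU_S1]; norm_num
  | more k ih _ => rw [JNU_rec]; positivity

theorem JNU_mul (k : ℕ) : JNU_S (k + 1) * JNU_S k = Real.pi / (2 * ((k : ℝ) + 1)) := by
  induction k with
  | zero => rw [JNU_S0, JNU_S1]; simp
  | succ k ih =>
    rw [JNU_rec]
    have h1 : ((k : ℝ) + 1) / (k + 2) * JNU_S k * JNU_S (k + 1) =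
        ((k : ℝ) + 1) / (k + 2) * (JNU_S (k + 1) * JNU_S k) := by ring
    rw [h1, ih]
    push_cast
    have h2 : (k : ℝ) + 1 ≠ 0 := by positivity
    have h3 : (k : ℝ) + 2 ≠ 0 := by positivity
    have h4 : (k : ℝ) + 1 + 1 ≠ 0 := by positivity
    field_simp
    ring

theorem JNU_gam (k : ℕ) : JNU_S k =
    Real.sqrt Real.pi * Real.Gamma (((k : ℝ) + 1) / 2) / (2 * Real.Gamma ((k : ℝ) / 2 + 1)) := by
  induction k using Nat.twoStepInduction with
  | zero =>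
    rw [JNU_S0]
    have h1 : (((0 : ℕ) : ℝ) + 1) / 2 = 1 / 2 := by norm_num
    have h2 : ((0 : ℕ) : ℝ) / 2 + 1 = 1 := by norm_num
    rw [h1, h2, Real.Gamma_one_half_eq, Real.Gamma_one, Real.mul_self_sqrt Real.pi_pos.le]
    ring
  | one =>
    rw [JNU_S1]
    have h1 : (((1 : ℕ) : ℝ) + 1) / 2 = 1 := by norm_num
    have h2 : ((1 : ℕ) : ℝ) / 2 + 1 = 1 / 2 + 1 := by norm_num
    rw [h1, h2, Real.Gamma_add_one (by norm_num), Real.Gamma_one_half_eq, Real.Gamma_one]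
    have : Real.sqrt Real.pi ≠ 0 := (Real.sqrt_pos.2 Real.pi_pos).ne'
    field_simp
  | more k ih _ =>
    rw [JNU_rec, ih]
    have h1 : (((k + 2 : ℕ) : ℝ) + 1) / 2 = ((k : ℝ) + 1) / 2 + 1 := by push_cast; ring
    have h2 : ((k + 2 : ℕ) : ℝ) / 2 + 1 = ((k : ℝ) / 2 + 1) + 1 := by push_cast; ring
    have h3 : ((k : ℝ) + 1) / 2 ≠ 0 := by positivity
    have h4 : (k : ℝ) / 2 + 1 ≠ 0 := by positivity
    rw [h1, h2, Real.Gamma_add_one h3, Real.Gamma_add_one h4]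
    have h5 : Real.Gamma ((k : ℝ) / 2 + 1) ≠ 0 := (Real.Gamma_pos_of_pos (by positivity)).ne'
    have h6 : (k : ℝ) + 2 ≠ 0 := by positivity
    field_simp

theorem JNU_kap (n : ℕ) (hn : 1 ≤ n) : kap n = Real.sqrt Real.pi ^ n / Real.Gamma ((n : ℝ) / 2 + 1) := by
  haveI : Nonempty (Fin n) := ⟨⟨0, hn⟩⟩
  unfold kap
  rw [EuclideanSpace.volume_ball, Fintype.card_fin, ENNReal.ofReal_one, one_pow, one_mul,
    ENNReal.toReal_ofReal]
  have := Real.Gamma_pos_of_pos (by positivity : 0 < (n : ℝ) / 2 + 1)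
  positivity

theorem JNU_MM (m : ℕ) : MMc (m + 2) 0 = JNU_S (m + 2) := by
  have hg : Continuous (fun t : ℝ => Real.sqrt (1 - t ^ 2) ^ (m + 1)) := by fun_prop
  have h2 := intervalIntegral.integral_comp_mul_deriv (a := 0) (b := Real.pi / 2) (f := Real.cos)
    (f' := fun x => -Real.sin x) (g := fun t : ℝ => Real.sqrt (1 - t ^ 2) ^ (m + 1))
    (fun x _ => Real.hasDerivAt_cos x) (by fun_prop) hg
  have h3 : MMc (m + 2) 0 = ∫ t in (0 : ℝ)..1, Real.sqrt (1 - t ^ 2) ^ (m + 1) := rfl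
  rw [Real.cos_zero, Real.cos_pi_div_two] at h2
  rw [h3, intervalIntegral.integral_symm, ← h2, ← intervalIntegral.integral_neg]
  unfold JNU_S
  refine intervalIntegral.integral_congr fun t ht => ?_
  rw [uIcc_of_le (by have := Real.pi_pos; linarith)] at ht
  show -(Real.sqrt (1 - Real.cos t ^ 2) ^ (m + 1) * -Real.sin t) = Real.sin t ^ (m + 2)
  have h5 : 1 - Real.cos t ^ 2 = Real.sin t ^ 2 := by
    have := Real.sin_sq_add_cos_sq t
    linarith
  rw [h5, Real.sqrt_sq (Real.sin_nonneg_of_nonneg_of_le_pi ht.1 (by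
    have := Real.pi_pos
    linarith [ht.2]))]
  ring

theorem JNU (h1 : ISV_stmt) (h2 : RAT_stmt) : JNU_stmt := by
  intro n hn
  obtain ⟨m, rfl⟩ : ∃ m, n = m + 2 := ⟨n - 2, by omega⟩
  have hX : X0 (m + 2) = JNU_S (m + 1) := rfl
  have hc : cW (m + 2) = JNU_S m := rfl
  have hm1 : m + 2 - 1 = m + 1 := rfl
  refine ⟨?_, ?_, (h2 _).1, (h2 _).1, ?_, ?_, ?_⟩
  · rw [hX]
    exact JNU_pos _
  · rw [hc]
    exact JNU_pos _
  · rw [hX, hc, JNU_mul]
    congr 1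
    push_cast
    ring
  · have h3 := (h1 (m + 2) hn (EuclideanSpace.single ⟨0, by omega⟩ 1) (by simp)).2
    rw [h3, hc, JNU_MM, JNU_rec]
    push_cast
    ring
  · rw [hX, JNU_gam, JNU_kap (m + 2) (by omega)]
    unfold sphereVol
    have e1 : (((m + 1 : ℕ) : ℝ) + 1) / 2 = ((m : ℝ) + 2) / 2 := by push_cast; ring
    have e2 : ((m + 1 : ℕ) : ℝ) / 2 + 1 = ((m : ℝ) + 2 + 1) / 2 := by push_cast; ring
    have e3 : ((m + 2 : ℕ) : ℝ) = (m : ℝ) + 2 := by push_cast; ring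
    rw [e1, e2, e3, Real.Gamma_add_one (by positivity : ((m : ℝ) + 2) / 2 ≠ 0)]
    have g1 : Real.Gamma (((m : ℝ) + 2) / 2) ≠ 0 := (Real.Gamma_pos_of_pos (by positivity)).ne'
    have g2 : Real.Gamma (((m : ℝ) + 2 + 1) / 2) ≠ 0 := (Real.Gamma_pos_of_pos (by positivity)).ne'
    have g3 : (m : ℝ) + 2 ≠ 0 := by positivity
    have e4 : Real.pi ^ (((m : ℝ) + 2 + 1) / 2) = Real.sqrt Real.pi * Real.sqrt Real.pi ^ (m + 2) := by
      rw [← pow_succ', Real.sqrt_eq_rpow, ← Real.rpow_natCast, ← Real.rpow_mul Real.pi_pos.le]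
      congr 1
      push_cast
      ring
    rw [e4]
    field_simp

end Pool.Agent.CRO
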